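import Pool.Agent.Lib.MP_226ef1_lc.U.Tools

/-!
# Module B3: Case B, minimal generating sets of mains (Paper.md, section 5.8, (B3))
-/

set_option autoImplicit false

namespace Pool.Agent.Lib.MP_226ef1_lc.U.H31

open Pool.Agent.Lib.MP_226ef1_lc.U

universe u

section
variable {α : Type u}

theorem mem_sds {r h c : ℕ} : c ∈ sds r h ↔ (∃ i, i < r ∧ c = cc i) ∨ (∃ i, i < h ∧ c = kk i) := by
  unfold sds
  rw [List.mem_append, List.mem_map, List.mem_map]
  constructor
  · rintro (⟨i, hi, rfl⟩ | ⟨i, hi, rfl⟩)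
    · exact Or.inl ⟨i, List.mem_range.1 hi, rfl⟩
    · exact Or.inr ⟨i, List.mem_range.1 hi, rfl⟩
  · rintro (⟨i, hi, rfl⟩ | ⟨i, hi, rfl⟩)
    · exact Or.inl ⟨i, List.mem_range.2 hi, rfl⟩
    · exact Or.inr ⟨i, List.mem_range.2 hi, rfl⟩

theorem length_sds (r h : ℕ) : (sds r h).length = r + h := by
  simp [sds]

/-- transversals of the seeds -/
theorem exists_transversal {τ : Tm} {Y : Finset α} {main : α → Prop} {gen : Finset α → Prop}
    {c : α → ℕ} (hg : GoodC τ Y main gen c) :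
    ∃ Z : Finset α, gen Z ∧ Z ⊆ Y ∧ Z.card ≤ τ.seeds.length ∧ (∀ x ∈ Z, c x ∈ τ.seeds) ∧
      (∀ x ∈ Z, ∀ y ∈ Z, c x = c y → x = y) ∧ ∀ s ∈ τ.seeds, ∃ x ∈ Z, c x = s := by
  classical
  obtain ⟨_, h2, h3⟩ := hg
  by_cases hne : τ.seeds = []
  · refine ⟨∅, h3 ∅ (Finset.empty_subset Y) ?_, Finset.empty_subset Y, ?_, ?_, ?_, ?_⟩
    · intro s hs
      rw [hne] at hs
      simp at hs
    · simp
    · intro x hx
      simp at hx
    · intro x hx
      simp at hx
    · intro s hs
      rw [hne] at hs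
      simp at hs
  · obtain ⟨s0, hs0⟩ := List.exists_mem_of_ne_nil _ hne
    obtain ⟨x0, _, _⟩ := h2 s0 hs0
    have h2' : ∀ s, ∃ x, s ∈ τ.seeds → x ∈ Y ∧ c x = s := by
      intro s
      by_cases hs : s ∈ τ.seeds
      · obtain ⟨x, hx, hxs⟩ := h2 s hs
        exact ⟨x, fun _ => ⟨hx, hxs⟩⟩
      · exact ⟨x0, fun h => absurd h hs⟩
    choose f hf using h2'
    have hcov : ∀ s ∈ τ.seeds, ∃ x ∈ τ.seeds.toFinset.image f, c x = s := fun s hs =>
      ⟨f s, Finset.mem_image.2 ⟨s, List.mem_toFinset.2 hs, rfl⟩, (hf s hs).2⟩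
    have hsub : τ.seeds.toFinset.image f ⊆ Y := by
      intro x hx
      obtain ⟨s, hs, rfl⟩ := Finset.mem_image.1 hx
      exact (hf s (List.mem_toFinset.1 hs)).1
    refine ⟨τ.seeds.toFinset.image f, h3 _ hsub hcov, hsub,
      Finset.card_image_le.trans (List.toFinset_card_le _), ?_, ?_, hcov⟩
    · intro x hx
      obtain ⟨s, hs, rfl⟩ := Finset.mem_image.1 hx
      rw [(hf s (List.mem_toFinset.1 hs)).2]
      exact List.mem_toFinset.1 hs
    · intro x hx y hy hxy
      obtain ⟨s, hs, rfl⟩ := Finset.mem_image.1 hx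
      obtain ⟨t, ht, rfl⟩ := Finset.mem_image.1 hy
      rw [(hf s (List.mem_toFinset.1 hs)).2, (hf t (List.mem_toFinset.1 ht)).2] at hxy
      rw [hxy]

/-- module B3 -/
theorem b3 : B3Statement.{u} := by
  classical
  intro J hJ α G main gen N hc hs hno W hW hW5 hmin hall
  obtain ⟨V, hV1, hV2, ⟨o, hoV, hom⟩, hVL, hVp, hVN⟩ := hs.c3 W hW hW5 hall
  obtain ⟨hWne, hWG⟩ := hc.gen_sub W hW
  have hYmem : ∀ x, x ∈ V ↔ x ∈ V.toFinset := fun x => List.mem_toFinset.symm
  have hYG : V.toFinset ⊆ G := fun x hx => (hV2 x ((hYmem x).2 hx)).1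
  have hWY : W ⊆ V.toFinset := fun x hx => (hYmem x).1 (hV1 x hx)
  have hYgen : gen V.toFinset := hc.gen_up W _ hW hWY hYG
  have hYcard : V.toFinset.card ≤ J.L + 1 := by
    have := List.toFinset_card_le V
    omega
  have hYmain : ∃ x ∈ V.toFinset, main x := by
    obtain ⟨x, hx⟩ := hWne
    exact ⟨x, hWY hx, hall x hx⟩
  obtain ⟨τ, hτ, c, hgood, hbad⟩ := hc.ol V.toFinset hYgen hYcard hYmain V hYmem hVL hVp hVN
  obtain ⟨Z, hZgen, hZY, hZcard, hZseed, hZinj, hZcov⟩ := exists_transversal hgood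
  obtain ⟨hg1, hg2, hg3⟩ := hgood
  have hmW : ∀ x ∈ V.toFinset, main x → x ∈ W := fun x hx hm =>
    (hV2 x ((hYmem x).2 hx)).2 hm
  have hoY : o ∈ V.toFinset := (hYmem o).1 hoV
  have hZG : Z ⊆ G := hZY.trans hYG
  rcases hτ with rfl | rfl | ⟨r, hr1, hr5, rfl⟩ | ⟨r, hr1, hr4, rfl⟩ | ⟨r, h, hh2, hrh, rfl⟩
  · -- `T1`
    have hseeds : (T1 J).seeds = sds 1 0 := rfl
    have h5 : cc 0 ∈ (T1 J).seeds := by
      rw [hseeds, mem_sds]
      exact Or.inl ⟨0, by omega, rfl⟩
    obtain ⟨x, hx, hxc⟩ := hZcov _ h5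
    have hxm : main x := (hg1 x (hZY hx)).2.2 (by rw [hxc]; rfl)
    refine hno x (hZG hx) hxm ⟨Z, hZgen, fun t => ⟨fun ht => ?_, fun ht => by rw [ht]; exact hx⟩⟩
    refine hZinj t ht x hx ?_
    have h6 := hZseed t ht
    rw [hseeds, mem_sds] at h6
    rcases h6 with ⟨i, hi, h6⟩ | ⟨i, hi, h6⟩
    · have : i = 0 := by omega
      rw [h6, this, hxc]
    · omega
  · -- `L3`
    have hseeds : (L3 J).seeds = sds 3 0 := rfl
    have hsm : ∀ i, i < 3 → cc i ∈ (L3 J).seeds := by
      intro i hi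
      rw [hseeds, mem_sds]
      exact Or.inl ⟨i, hi, rfl⟩
    obtain ⟨x, hx, hxc⟩ := hZcov _ (hsm 0 (by omega))
    obtain ⟨y, hy, hyc⟩ := hZcov _ (hsm 1 (by omega))
    obtain ⟨z, hz, hzc⟩ := hZcov _ (hsm 2 (by omega))
    have hxy : x ≠ y := by
      rintro rfl
      rw [hxc] at hyc
      simp [cc] at hyc
    have hyz : y ≠ z := by
      rintro rfl
      rw [hyc] at hzc
      simp [cc] at hzc
    have hzx : z ≠ x := by
      rintro rfl
      rw [hzc] at hxc
      simp [cc] at hxc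
    have hxm : main x := (hg1 x (hZY hx)).2.2 (by rw [hxc]; rfl)
    have hym : main y := (hg1 y (hZY hy)).2.2 (by rw [hyc]; rfl)
    have hzm : main z := (hg1 z (hZY hz)).2.2 (by rw [hzc]; rfl)
    have hZxyz : ∀ t, t ∈ Z ↔ t = x ∨ t = y ∨ t = z := by
      intro t
      constructor
      · intro ht
        have h6 := hZseed t ht
        rw [hseeds, mem_sds] at h6
        rcases h6 with ⟨i, hi, h6⟩ | ⟨i, hi, h6⟩
        · interval_cases i
          · exact Or.inl (hZinj t ht x hx (h6.trans hxc.symm))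
          · exact Or.inr (Or.inl (hZinj t ht y hy (h6.trans hyc.symm)))
          · exact Or.inr (Or.inr (hZinj t ht z hz (h6.trans hzc.symm)))
        · omega
      · rintro (rfl | rfl | rfl)
        · exact hx
        · exact hy
        · exact hz
    have hZ3 : Z.card ≤ 3 := by
      refine hZcard.trans ?_
      rw [hseeds, length_sds]
    have huniq : ∀ t ∈ G, ¬ main t → t = o := by
      intro t htG htm
      refine hs.c1 (insert t (insert o Z)) (hc.gen_up Z _ hZgen ?_ ?_) ?_ t ?_ o ?_ htm hom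
      · exact (Finset.subset_insert o Z).trans (Finset.subset_insert t _)
      · exact Finset.insert_subset htG (Finset.insert_subset (hYG hoY) hZG)
      · have h7 := Finset.card_insert_le t (insert o Z)
        have h8 := Finset.card_insert_le o Z
        omega
      · exact Finset.mem_insert_self _ _
      · exact Finset.mem_insert_of_mem (Finset.mem_insert_self _ _)
    obtain ⟨i, j, k, hi, hj, hk, hleg, W1, W2, W3, hWO, hl1, hl2, hl3, hN⟩ :=
      hs.c4 x y z hxy hyz hzx hxm hym hzm ⟨Z, hZgen, hZxyz⟩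
    have hco : c o = oo 0 := by
      have h9 := hg1 o hoY
      have h10 : ¬ c o % 2 = 1 := fun h => hom (h9.2.2 h)
      have h11 : (L3 J).cols (c o) := h9.1
      rcases h11 with ⟨i, hi, h⟩ | ⟨i, hi, h⟩ | ⟨i, hi, h⟩ | ⟨i, hi, h⟩
      · rw [h] at h10; unfold cc at h10; omega
      · omega
      · rw [h] at h10; unfold dd at h10; omega
      · have : i = 0 := by omega
        rw [h, this]
    have hW1 : W1 = List.replicate (J.p i) o := by
      refine List.eq_replicate_iff.2 ⟨hl1, fun t ht => ?_⟩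
      have := hWO t (by simp [ht])
      exact huniq t this.1 this.2
    have hW2 : W2 = List.replicate (J.p j) o := by
      refine List.eq_replicate_iff.2 ⟨hl2, fun t ht => ?_⟩
      have := hWO t (by simp [ht])
      exact huniq t this.1 this.2
    have hW3 : W3 = List.replicate (J.p k) o := by
      refine List.eq_replicate_iff.2 ⟨hl3, fun t ht => ?_⟩
      have := hWO t (by simp [ht])
      exact huniq t this.1 this.2
    have hmap : (x :: (W1 ++ y :: (W2 ++ z :: (W3 ++ [x])))).map c =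
        cc 0 :: (List.replicate (J.p i) (oo 0) ++ cc 1 :: (List.replicate (J.p j) (oo 0) ++
          cc 2 :: (List.replicate (J.p k) (oo 0) ++ [cc 0]))) := by
      rw [hW1, hW2, hW3]
      simp only [List.map_cons, List.map_append, List.map_replicate, List.map_nil, hxc, hyc, hzc,
        hco]
    refine hbad _ ⟨?_, ?_, ?_⟩ hN
    · intro t ht
      have h12 : t = x ∨ t = y ∨ t = z ∨ t ∈ W1 ++ W2 ++ W3 := by
        simp only [List.mem_cons, List.mem_append, List.not_mem_nil, or_false] at ht ⊢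
        tauto
      rcases h12 with rfl | rfl | rfl | h12
      · exact hZY hx
      · exact hZY hy
      · exact hZY hz
      · rw [huniq t (hWO t h12).1 (hWO t h12).2]
        exact hoY
    · exact Or.inr ⟨i, j, k, hi, hj, hk, hleg, hmap⟩
    · intro s hs'
      rw [hseeds, mem_sds] at hs'
      rw [hmap]
      rcases hs' with ⟨i', hi', rfl⟩ | ⟨i', hi', rfl⟩
      · interval_cases i' <;> simp
      · omega
  · -- `G(r,0)`
    have hseeds : (G0 J r).seeds = sds r 0 := rfl
    have hodd : ∀ s ∈ (G0 J r).seeds, s % 2 = 1 := by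
      intro s hs'
      rw [hseeds, mem_sds] at hs'
      rcases hs' with ⟨i, _, rfl⟩ | ⟨i, hi, _⟩
      · unfold cc; omega
      · omega
    have hZW : Z ⊆ W := fun x hx =>
      hmW x (hZY hx) ((hg1 x (hZY hx)).2.2 (hodd _ (hZseed x hx)))
    have hZeq : Z = W := hmin Z hZW hZgen
    have hhub : ∀ x ∈ V.toFinset, ¬ main x → c x = oo 0 := by
      intro x hx hxm
      have h9 := hg1 x hx
      have h10 : ¬ c x % 2 = 1 := fun h => hxm (h9.2.2 h)
      have h11 : (G0 J r).cols (c x) := h9.1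
      rcases h11 with ⟨i, hi, h⟩ | ⟨i, hi, h⟩ | ⟨i, hi, h⟩ | ⟨i, hi, h⟩
      · rw [h] at h10; unfold cc at h10; omega
      · omega
      · rw [h] at h10; unfold dd at h10; omega
      · have : i = 0 := by omega
        rw [h, this]
    have hfull : ∀ s ∈ (G0 J r).seeds, s ∈ V.map c := by
      intro s hs'
      obtain ⟨x, hx, hxs⟩ := hg2 s hs'
      exact List.mem_map.2 ⟨x, (hYmem x).2 hx, hxs⟩
    refine hbad V ⟨fun x hx => (hYmem x).1 hx, Or.inr ⟨?_, ?_, ?_⟩, hfull⟩ hVN
    · rw [List.length_map, hVL]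
    · rw [sum_map_mod (main := main) fun a ha => (hg1 a ((hYmem a).1 ha)).2, hVp]
    · intro s
      constructor
      · intro hs'
        obtain ⟨x, hx, rfl⟩ := List.mem_map.1 hs'
        by_cases hxm : main x
        · left
          have hxW := hmW x ((hYmem x).1 hx) hxm
          rw [← hZeq] at hxW
          exact hZseed x hxW
        · exact Or.inr (hhub x ((hYmem x).1 hx) hxm)
      · rintro (hs' | rfl)
        · exact hfull s hs'
        · exact List.mem_map.2 ⟨o, hoV, hhub o hoY hom⟩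
  · -- `G(r,1)`
    have hseeds : (G1 J r).seeds = sds r 1 := rfl
    have hk0 : kk 0 ∈ (G1 J r).seeds := by
      rw [hseeds, mem_sds]
      exact Or.inr ⟨0, by omega, rfl⟩
    have hc0 : cc 0 ∈ (G1 J r).seeds := by
      rw [hseeds, mem_sds]
      exact Or.inl ⟨0, by omega, rfl⟩
    obtain ⟨o', ho', ho'c⟩ := hZcov _ hk0
    obtain ⟨x', hx', hx'c⟩ := hZcov _ hc0
    have ho'm : ¬ main o' := by
      intro h
      have := (hg1 o' (hZY ho')).2.1 h
      rw [ho'c] at this
      simp [kk] at this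
    have hx'm : main x' := (hg1 x' (hZY hx')).2.2 (by rw [hx'c]; rfl)
    have hoth : ∀ x ∈ Z, x ≠ o' → main x := by
      intro x hx hxo
      have h6 := hZseed x hx
      rw [hseeds, mem_sds] at h6
      rcases h6 with ⟨i, _, h6⟩ | ⟨i, hi, h6⟩
      · refine (hg1 x (hZY hx)).2.2 ?_
        rw [h6]
        unfold cc
        omega
      · exfalso
        refine hxo (hZinj x hx o' ho' ?_)
        have : i = 0 := by omega
        rw [h6, this, ho'c]
    have hZ5 : Z.card ≤ 5 := by
      refine hZcard.trans ?_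
      rw [hseeds, length_sds]
      omega
    obtain ⟨V', hV'1, hV'L, hV'p, hV'N⟩ := hs.c2 Z hZgen hZ5 o' ho' ho'm hoth ⟨x', hx', hx'm⟩
    have hfull : ∀ s ∈ (G1 J r).seeds, s ∈ V'.map c := by
      intro s hs'
      obtain ⟨x, hx, hxs⟩ := hZcov s hs'
      exact List.mem_map.2 ⟨x, (hV'1 x).2 hx, hxs⟩
    refine hbad V' ⟨fun x hx => hZY ((hV'1 x).1 hx), Or.inr ⟨?_, ?_, ?_⟩, hfull⟩ hV'N
    · rw [List.length_map, hV'L]
    · rw [sum_map_mod (main := main) fun a ha => (hg1 a (hZY ((hV'1 a).1 ha))).2, hV'p]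
    · intro s
      constructor
      · intro hs'
        obtain ⟨x, hx, rfl⟩ := List.mem_map.1 hs'
        exact hZseed x ((hV'1 x).1 hx)
      · intro hs'
        exact hfull s hs'
  · -- `F(r,h)`
    have hseeds : (FF J r h).seeds = sds r h := rfl
    have hk0 : kk 0 ∈ (FF J r h).seeds := by
      rw [hseeds, mem_sds]
      exact Or.inr ⟨0, by omega, rfl⟩
    have hk1 : kk 1 ∈ (FF J r h).seeds := by
      rw [hseeds, mem_sds]
      exact Or.inr ⟨1, by omega, rfl⟩
    obtain ⟨x, hx, hxc⟩ := hZcov _ hk0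
    obtain ⟨y, hy, hyc⟩ := hZcov _ hk1
    have hxm : ¬ main x := by
      intro h
      have := (hg1 x (hZY hx)).2.1 h
      rw [hxc] at this
      simp [kk] at this
    have hym : ¬ main y := by
      intro h
      have := (hg1 y (hZY hy)).2.1 h
      rw [hyc] at this
      simp [kk] at this
    have hZ5 : Z.card ≤ 5 := by
      refine hZcard.trans ?_
      rw [hseeds, length_sds]
      exact hrh
    have hxy := hs.c1 Z hZgen hZ5 x hx y hy hxm hym
    rw [hxy, hyc] at hxc
    simp [kk] at hxc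

end

end Pool.Agent.Lib.MP_226ef1_lc.U.H31
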