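import Pool.Agent.Lib.MP_226ef1_lc.U.Tools

/-!
# Module EFACTS: the idempotents `e_Y` (Paper.md, section 5.0)
-/

set_option autoImplicit false

namespace Pool.Agent.Lib.MP_226ef1_lc.U.H31

open Pool.Agent.Lib.MP_226ef1_lc.U

universe u

section
variable {T : Type u} [Semigroup T]

theorem cnt_flatten_replicate {α : Type u} (n : ℕ) (t : α) (w : List α) :
    cnt t (List.replicate n w).flatten = n * cnt t w := by
  induction n with
  | zero => simp
  | succ n ih =>
    rw [List.replicate_succ, List.flatten_cons, cnt_append, ih]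
    ring

theorem mem_dbl {α : Type u} (l : ℕ) (Y : Finset α) (t : α) : t ∈ dbl l Y ↔ t ∈ Y := by
  unfold dbl
  rw [List.mem_flatten]
  constructor
  · rintro ⟨m, hm, ht⟩
    rw [List.mem_replicate] at hm
    rw [hm.2, List.mem_append, Finset.mem_toList] at ht
    exact ht.elim id id
  · intro ht
    refine ⟨Y.toList ++ Y.toList, List.mem_replicate.2 ⟨Nat.succ_ne_zero l, rfl⟩, ?_⟩
    rw [List.mem_append, Finset.mem_toList]
    exact Or.inl ht

theorem length_dbl {α : Type u} (l : ℕ) (Y : Finset α) :
    (dbl l Y).length = (l + 1) * (2 * Y.card) := by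
  unfold dbl
  rw [List.length_flatten, List.map_replicate, List.sum_replicate, List.length_append,
    Finset.length_toList, smul_eq_mul]
  ring

theorem lt_length_dbl {α : Type u} (l : ℕ) {Y : Finset α} (hY : Y.Nonempty) :
    l < (dbl l Y).length := by
  rw [length_dbl]
  have h := Finset.card_pos.2 hY
  nlinarith

theorem cnt_dbl {α : Type u} (l : ℕ) (Y : Finset α) (t : α) : cnt t (dbl l Y) % 2 = 0 := by
  unfold dbl
  rw [cnt_flatten_replicate, cnt_append]
  have h : (l + 1) * (cnt t Y.toList + cnt t Y.toList) = 2 * ((l + 1) * cnt t Y.toList) := by ring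
  rw [h]
  exact Nat.mul_mod_right 2 _

theorem prd_ne_one (t : T) (w : List T) : ∃ s : T, prd (t :: w) = (s : WithOne T) := by
  induction w generalizing t with
  | nil => exact ⟨t, by simp⟩
  | cons a w ih =>
    obtain ⟨s, hs⟩ := ih a
    refine ⟨t * s, ?_⟩
    rw [prd_cons, hs, WithOne.coe_mul]

/-- module EFACTS -/
theorem efacts : EFactsStatement.{u} := by
  intro l T _ hL
  have hne : ∀ (Y : Finset T) (w : List T), l < w.length → (∀ t, t ∈ w ↔ t ∈ Y) → Y.Nonempty := by
    intro Y w hw hc
    have h0 : 0 < w.length := by omega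
    obtain ⟨t, ht⟩ := List.exists_mem_of_length_pos h0
    exact ⟨t, (hc t).1 ht⟩
  have heq : ∀ (Y : Finset T) (w : List T), l < w.length → (∀ t, t ∈ w ↔ t ∈ Y) →
      (∀ t, cnt t w % 2 = 0) → prd w = ee l Y := by
    intro Y w hw hc hev
    refine hL w (dbl l Y) hw (lt_length_dbl l (hne Y w hw hc)) (fun t => ?_) fun t => ?_
    · rw [hc t, mem_dbl]
    · rw [hev t, cnt_dbl]
  refine ⟨mem_dbl l, fun Y hY => lt_length_dbl l hY, cnt_dbl l, heq, ?_, ?_, ?_, ?_⟩
  · intro Y Y' Z hY hY' hZ
    unfold ee
    rw [← prd_append]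
    refine heq Z (dbl l Y ++ dbl l Y') ?_ (fun t => ?_) fun t => ?_
    · rw [List.length_append]
      have := lt_length_dbl l hY
      omega
    · rw [List.mem_append, mem_dbl, mem_dbl, hZ t]
    · rw [cnt_append]
      have h1 := cnt_dbl l Y t
      have h2 := cnt_dbl l Y' t
      omega
  · intro Y t ht
    unfold ee
    rw [← prd_singleton t, ← prd_append, ← prd_append]
    have hY : Y.Nonempty := ⟨t, ht⟩
    have h1 := lt_length_dbl l hY
    refine hL _ _ ?_ ?_ (fun s => ?_) fun s => ?_
    · rw [List.length_append]; omega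
    · rw [List.length_append]; omega
    · rw [List.mem_append, List.mem_append]
      exact Or.comm
    · rw [cnt_append, cnt_append, Nat.add_comm]
  · intro Y t ht
    have hY : Y.Nonempty := ⟨t, ht⟩
    have h1 := lt_length_dbl l hY
    have h2 : ee l Y * (t : WithOne T) * (t : WithOne T) = prd (dbl l Y ++ ([t] ++ [t])) := by
      rw [prd_append, prd_append, prd_singleton, ← mul_assoc]
      rfl
    rw [h2]
    refine heq Y _ ?_ (fun s => ?_) fun s => ?_
    · rw [List.length_append]; omega
    · rw [List.mem_append, mem_dbl, List.mem_append, List.mem_singleton]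
      constructor
      · rintro (h | h | h)
        · exact h
        · rw [h]; exact ht
        · rw [h]; exact ht
      · exact Or.inl
    · rw [cnt_append, cnt_append]
      have h3 := cnt_dbl l Y s
      omega
  · intro Y hY
    obtain ⟨t, w, hw⟩ : ∃ t w, dbl l Y = t :: w := by
      have h0 : dbl l Y ≠ [] := by
        intro h
        have := lt_length_dbl l hY
        rw [h] at this
        simp at this
      exact List.exists_cons_of_ne_nil h0
    obtain ⟨s, hs⟩ := prd_ne_one t w
    refine ⟨s, ?_⟩
    unfold ee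
    rw [hw, hs]

end

end Pool.Agent.Lib.MP_226ef1_lc.U.H31
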