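import Pool.Agent.Lib.MP_226ef1_lc.U.Tools

/-!
# Module STEP4: no mains (Paper.md, section 5.4)
-/

set_option autoImplicit false

namespace Pool.Agent.Lib.MP_226ef1_lc.U.H31

open Pool.Agent.Lib.MP_226ef1_lc.U

universe u

open Classical in
/-- the colouring of Paper 5.4 -/
noncomputable def col4 {T : Type u} (G Y : Finset T) (t : T) : ℕ :=
  if t ∈ Y then kk (Y.toList.idxOf t) else if t ∈ G then oo 0 else 0

theorem col4_seed {T : Type u} {G Y : Finset T} {t : T} (h : t ∈ Y) :
    ∃ i, i < Y.card ∧ col4 G Y t = kk i := by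
  classical
  refine ⟨Y.toList.idxOf t, ?_, ?_⟩
  · have h1 : Y.toList.idxOf t < Y.toList.length :=
      List.idxOf_lt_length_iff.2 (Finset.mem_toList.2 h)
    rwa [Finset.length_toList] at h1
  · unfold col4
    rw [if_pos h]

theorem exists_of_seed {T : Type u} (G Y : Finset T) {i : ℕ} (hi : i < Y.card) :
    ∃ t ∈ Y, ∀ s, col4 G Y s = kk i ↔ s = t := by
  classical
  have h1 : i < Y.toList.length := by rwa [Finset.length_toList]
  refine ⟨Y.toList[i], Finset.mem_toList.1 (List.getElem_mem h1), fun s => ?_⟩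
  have h2 : Y.toList.idxOf (Y.toList[i]) = i := List.Nodup.idxOf_getElem Y.nodup_toList i h1
  constructor
  · intro hs
    unfold col4 at hs
    by_cases hsY : s ∈ Y
    · rw [if_pos hsY] at hs
      have h3 : Y.toList.idxOf s = i := by unfold kk at hs; omega
      have h4 : Y.toList.idxOf s < Y.toList.length :=
        List.idxOf_lt_length_iff.2 (Finset.mem_toList.2 hsY)
      have h5 : Y.toList[Y.toList.idxOf s] = s := List.getElem_idxOf h4
      rw [← h5]
      simp only [h3]
    · rw [if_neg hsY] at hs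
      exfalso
      by_cases hsG : s ∈ G
      · rw [if_pos hsG] at hs
        unfold kk oo at hs
        omega
      · rw [if_neg hsG] at hs
        unfold kk at hs
        omega
  · rintro rfl
    unfold col4
    rw [if_pos (Finset.mem_toList.1 (List.getElem_mem h1)), h2]

theorem mem_of_col4 {T : Type u} {G Y : Finset T} (hYG : Y ⊆ G) {t : T} (h : col4 G Y t ≠ 0) :
    t ∈ G := by
  classical
  unfold col4 at h
  by_cases hY : t ∈ Y
  · exact hYG hY
  · rw [if_neg hY] at h
    by_contra hG
    rw [if_neg hG] at h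
    exact h rfl

theorem col4_ne {T : Type u} {G Y : Finset T} {t : T} (h : t ∈ G) : col4 G Y t ≠ 0 := by
  classical
  unfold col4
  by_cases hY : t ∈ Y
  · rw [if_pos hY]
    unfold kk
    omega
  · rw [if_neg hY, if_pos h]
    unfold oo
    omega

/-- module STEP4 -/
theorem step4 (hF : FamWfStatement) : Step4Statement.{u} := by
  classical
  intro J hJ T _ G u hu hcon hR hgen hno
  obtain ⟨Y, hY, hY5⟩ := hgen
  obtain ⟨hYne, hYG, _⟩ := id hY
  have hcard : 1 ≤ Y.card := Finset.card_pos.2 hYne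
  have hfam : InFam J (FR J Y.card) := Or.inr ⟨Y.card, hcard, hY5, rfl⟩
  have hwf : (FR J Y.card).WF := (hF J hJ _ hfam).1
  refine ⟨FR J Y.card, hfam, fun t => [col4 G Y t], fun g => List.cons_ne_nil _ _, ?_⟩
  intro v hv _ hnf
  rw [List.map_id', List.map_id']
  have hfm : ∀ w : List T, w.flatMap (fun t => [col4 G Y t]) = w.map (col4 G Y) := fun w =>
    flatMap_eq_map fun a _ => rfl
  rw [hfm, hfm] at hnf
  have hlen : (FR J Y.card).len = J.L := rfl
  have hu0 : u ≠ [] := by
    rintro rfl
    simp at hu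
  have hu1 : 0 ∉ u.map (col4 G Y) := by
    intro h0
    obtain ⟨t, ht, h1⟩ := List.mem_map.1 h0
    exact col4_ne ((hcon t).1 ht) h1
  have hu2 : ¬ (FR J Y.card).Free (u.map (col4 G Y)) := by
    refine Tm.not_free_of_len ?_
    rw [List.length_map, hlen]
    exact hu
  have hmapne : ∀ w : List T, w ≠ [] → w.map (col4 G Y) ≠ [] := fun w hw h =>
    hw (List.map_eq_nil_iff.1 h)
  have hval : ∀ w : List T, J.L < w.length → (∀ t ∈ w, t ∈ G) → (∀ t ∈ Y, t ∈ w) →
      prd w = ee J.L G := by
    intro w hw hwG hwY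
    have h1 : Gen J.L G w.toFinset := hR.up Y _ hY (fun t ht => List.mem_toFinset.2 (hwY t ht))
      fun t ht => hwG t (List.mem_toFinset.1 ht)
    rw [hR.long w w.toFinset hw (fun t => List.mem_toFinset.symm) h1]
    exact hR.even w hwG (par_eq_zero_of_forall fun a ha => hno a (hwG a ha))
  have hueq : prd u = ee J.L G := hval u hu (fun t ht => (hcon t).1 ht) fun t ht =>
    (hcon t).2 (hYG ht)
  rw [hueq]
  rcases Tm.of_nf_eq hwf (hmapne v hv) (hmapne u hu0) hnf with h | h | h
  · exact absurd h.2 hu1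
  · exact absurd (h.2.2.2 ▸ h.2.2.1) hu2
  · obtain ⟨hv1, _, hv2, _, hsd, _⟩ := h
    have hvG : ∀ t ∈ v, t ∈ G := fun t ht => mem_of_col4 hYG fun h0 =>
      hv1 (List.mem_map.2 ⟨t, ht, h0⟩)
    refine hval v ?_ hvG ?_
    · by_contra hle
      refine hv2 ⟨hmapne v hv, ?_, ?_, fun s _ hs => hs⟩
      · rw [List.length_map, hlen]
        omega
      · intro c hc
        obtain ⟨t, ht, rfl⟩ := List.mem_map.1 hc
        by_cases htY : t ∈ Y
        · obtain ⟨i, hi, h1⟩ := col4_seed (G := G) htY
          exact Or.inr (Or.inl ⟨i, hi, h1⟩)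
        · refine Or.inr (Or.inr (Or.inr ⟨0, ?_, ?_⟩))
          · unfold TS.L
            omega
          · unfold col4
            rw [if_neg htY, if_pos (hvG t ht)]
    · intro t ht
      obtain ⟨i, hi, h1⟩ := col4_seed (G := G) ht
      have hseed : kk i ∈ (FR J Y.card).seeds := by
        have h2 : (FR J Y.card).seeds = sds 0 Y.card := rfl
        rw [h2]
        unfold sds
        rw [List.mem_append]
        exact Or.inr (List.mem_map.2 ⟨i, List.mem_range.2 hi, rfl⟩)
      have h3 : kk i ∈ u.map (col4 G Y) := List.mem_map.2 ⟨t, (hcon t).2 (hYG ht), h1⟩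
      obtain ⟨s, hs, h4⟩ := List.mem_map.1 ((hsd _ hseed).2 h3)
      obtain ⟨t', _, h5⟩ := exists_of_seed G Y hi
      have h6 := (h5 s).1 h4
      have h7 := (h5 t).1 h1
      rw [h7, ← h6]
      exact hs

end Pool.Agent.Lib.MP_226ef1_lc.U.H31
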